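import Pool.Agent.H90.SRC.Targets

/-!
# Row GAP of the board on segments: the gaps of the letters
-/

set_option autoImplicit false

open Finset
open Pool.Agent.H66.SLP
open Pool.Agent.H90.SRC

namespace Pool.Agent.H35.SRC

/-- the first occurrence comes before every occurrence -/
theorem idxOf_le {Y : Type} [DecidableEq Y] (y : Y) : ∀ (l : List Y) (j : ℕ),
    l[j]? = some y → l.idxOf y ≤ j
  | [], j, h => by simp at h
  | a :: t, 0, h => by
      have : a = y := by simpa using h
      simp [this]
  | a :: t, j + 1, h => by
      have h' : t[j]? = some y := by simpa using h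
      have ih := idxOf_le y t j h'
      rw [List.idxOf_cons]
      by_cases hay : (a == y) = true
      · simp [hay]
      · simp only [Bool.not_eq_true] at hay
        simp only [hay, cond_false]
        omega

/-- at the first occurrence stands the letter -/
theorem get_idxOf {Y : Type} [DecidableEq Y] (y : Y) : ∀ (l : List Y),
    l.idxOf y < l.length → l[l.idxOf y]? = some y
  | [], h => by simp at h
  | a :: t, h => by
      rw [List.idxOf_cons] at h ⊢
      by_cases hay : (a == y) = true
      · simp only [hay, cond_true]
        simpa using hay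
      · simp only [Bool.not_eq_true] at hay
        simp only [hay, cond_false] at h ⊢
        have h' : t.idxOf y < t.length := by simpa using h
        simpa using get_idxOf y t h'

/-- the number of the positions of a letter -/
theorem sum_pos {Y : Type} [DecidableEq Y] (y : Y) : ∀ (l : List Y),
    (∑ b : Fin l.length, if l[(b : ℕ)]? = some y then (1 : ℝ) else 0) = (l.count y : ℝ)
  | [] => by simp
  | a :: t => by
      have ih := sum_pos y t
      rw [show (∑ b : Fin (a :: t).length, if (a :: t)[(b : ℕ)]? = some y then (1 : ℝ) else 0) =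
        ∑ b : Fin (t.length + 1), if (a :: t)[(b : ℕ)]? = some y then (1 : ℝ) else 0 from rfl,
        Fin.sum_univ_succ]
      have h1 : (∑ b : Fin t.length,
          if (a :: t)[((Fin.succ b : Fin (t.length + 1)) : ℕ)]? = some y then (1 : ℝ) else 0) =
          ∑ b : Fin t.length, if t[(b : ℕ)]? = some y then (1 : ℝ) else 0 := by
        apply Finset.sum_congr rfl
        intro b _
        simp
      rw [h1, ih, List.count_cons]
      by_cases hay : a = y
      · simp [hay]
        ring
      · simp [hay]

/-- the starts of the gaps of the letter `y` -/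
def St {Y : Type} (u : List Y) (y : Y) (a : ℕ) : Prop := a = 0 ∨ u[a - 1]? = some y

/-- the end of the gap of `y` which starts at `a` -/
def En {Y : Type} [DecidableEq Y] (u : List Y) (y : Y) (a : ℕ) : ℕ := a + (u.drop a).idxOf y + 1

theorem En_av {Y : Type} [DecidableEq Y] (u : List Y) (y : Y) (a k : ℕ) (h1 : a ≤ k)
    (h2 : k + 1 < En u y a) : u[k]? ≠ some y := by
  intro h
  unfold En at h2
  have h3 : (u.drop a)[k - a]? = some y := by
    rw [List.getElem?_drop, Nat.add_sub_cancel' h1]
    exact h
  have h4 := idxOf_le y (u.drop a) (k - a) h3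
  omega

theorem En_le {Y : Type} [DecidableEq Y] (u : List Y) (y : Y) (a : ℕ) (h1 : a ≤ u.length) :
    En u y a ≤ u.length + 1 := by
  unfold En
  have h4 : (u.drop a).idxOf y ≤ (u.drop a).length := List.idxOf_le_length
  rw [List.length_drop] at h4
  omega

theorem En_St {Y : Type} [DecidableEq Y] (u : List Y) (y : Y) (a : ℕ)
    (h : En u y a ≤ u.length) : St u y (En u y a) := by
  right
  unfold En at h ⊢
  have h1 : (u.drop a).idxOf y < (u.drop a).length := by
    rw [List.length_drop]
    omega
  have h2 := get_idxOf y (u.drop a) h1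
  rw [List.getElem?_drop] at h2
  rw [Nat.add_sub_cancel]
  exact h2

theorem exists_start {Y : Type} [DecidableEq Y] (u : List Y) (y : Y) (x : ℕ)
    (hx : x < u.length + 1) : ∃ a ≤ x, St u y a ∧ x < En u y a := by
  classical
  refine ⟨Nat.findGreatest (St u y) x, Nat.findGreatest_le x, ?_, ?_⟩
  · exact Nat.findGreatest_spec (P := St u y) (Nat.zero_le x) (Or.inl rfl)
  · by_contra hcon
    push Not at hcon
    have h1 := En_St u y (Nat.findGreatest (St u y) x) (by omega)
    have h2 := Nat.le_findGreatest hcon h1
    unfold En at h2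
    omega

theorem pf_GAP : T_GAP := by
  classical
  intro Y _ _ u p θ hp hθ
  let ι := {q : Y × Fin (u.length + 1) // St u q.1 (q.2 : ℕ)}
  refine ⟨ι, inferInstance, inferInstance, fun q => q.1.1, fun q => (q.1.2 : ℕ),
    fun q => En u q.1.1 (q.1.2 : ℕ), ?_, ?_, ?_⟩
  · refine ⟨fun i => Nat.zero_le _, ?_, ?_, ?_, ?_⟩
    · intro i
      simp only [En]
      omega
    · intro i
      exact En_le u _ _ (by have := i.1.2.isLt; omega)
    · rintro ⟨⟨y, a⟩, hi⟩ ⟨⟨y', a'⟩, hj⟩ hne hz
      simp only at hz hi hj ⊢
      subst hz
      have hsep : ∀ b b' : ℕ, St u y b' → b < b' → En u y b ≤ b' := by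
        intro b b' hb' hlt
        by_contra hcon
        push Not at hcon
        rcases hb' with h0 | h0
        · omega
        · exact En_av u y b (b' - 1) (by omega) (by omega) h0
      rcases lt_trichotomy (a : ℕ) (a' : ℕ) with h | h | h
      · exact Or.inl (hsep _ _ hj h)
      · exact absurd (by
          apply Subtype.ext
          exact Prod.ext rfl (Fin.ext h)) hne
      · exact Or.inr (hsep _ _ hi h)
    · intro i k h1 h2
      exact En_av u _ _ k h1 h2
  · intro x _ hx
    have hst := fun y => exists_start u y x hx
    choose a ha1 ha2 ha3 using hst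
    unfold cov
    have hf : ∀ y : Y, St u y ((⟨a y, by have := ha1 y; omega⟩ : Fin (u.length + 1)) : ℕ) :=
      fun y => ha2 y
    rw [← Finset.card_univ]
    apply Finset.card_le_card_of_injOn
      (fun y => (⟨(y, ⟨a y, by have := ha1 y; omega⟩), hf y⟩ : ι))
    · intro y _
      simp only [Finset.coe_filter, Finset.mem_univ, true_and, Set.mem_setOf_eq]
      exact ⟨ha1 y, ha3 y⟩
    · intro y _ y' _ h
      have := congrArg (fun q : ι => q.1.1) h
      simpa using this
  · have h1 : (∑ i : ι, p i.1.1) =
        ∑ q : Y × Fin (u.length + 1), if St u q.1 (q.2 : ℕ) then p q.1 else 0 := by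
      rw [← Finset.sum_filter]
      symm
      apply Finset.sum_subtype
      intro q
      simp
    rw [h1, Fintype.sum_prod_type]
    have h2 : ∀ y : Y, (∑ b : Fin (u.length + 1), if St u y (b : ℕ) then p y else 0) =
        p y * ((u.count y : ℝ) + 1) := by
      intro y
      rw [Fin.sum_univ_succ]
      have h3 : (∑ b : Fin u.length,
          if St u y ((Fin.succ b : Fin (u.length + 1)) : ℕ) then p y else 0) =
          ∑ b : Fin u.length, p y * (if u[(b : ℕ)]? = some y then (1 : ℝ) else 0) := by
        apply Finset.sum_congr rfl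
        intro b _
        have h4 : St u y ((Fin.succ b : Fin (u.length + 1)) : ℕ) ↔ u[(b : ℕ)]? = some y := by
          simp [St]
        by_cases h5 : u[(b : ℕ)]? = some y
        · rw [if_pos (h4.2 h5), if_pos h5, mul_one]
        · rw [if_neg (fun h => h5 (h4.1 h)), if_neg h5, mul_zero]
      rw [h3, ← Finset.mul_sum, sum_pos]
      have h6 : St u y ((0 : Fin (u.length + 1)) : ℕ) := Or.inl rfl
      rw [if_pos h6]
      ring
    calc (∑ y : Y, ∑ b : Fin (u.length + 1), if St u (y, b).1 ((y, b).2 : ℕ) then p (y, b).1
          else 0) = ∑ y : Y, p y * ((u.count y : ℝ) + 1) := Finset.sum_congr rfl fun y _ => h2 y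
      _ ≤ ∑ _y : Y, θ := Finset.sum_le_sum fun y _ => hθ y
      _ = (Fintype.card Y : ℝ) * θ := by
          rw [Finset.sum_const, nsmul_eq_mul, Finset.card_univ]

end Pool.Agent.H35.SRC
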